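import Pool.Agent.N906.QP.Stm
import Pool.Agent.N954.KG_BASQ

/-!
# Project QP (helper906), statement UPJ: the joint upper bound

`upj` proves `S_UPJ K q κ₁` from `S_BASQ K`, `S_CELLQ K`, `S_RANK K`, `S_BIGQ K q κ₁`, following the
proof text in `Pool/Agent/N906/QP/Stm.lean`. Written by helper575.
-/

set_option autoImplicit false
set_option linter.unusedSectionVars false

namespace Pool.Agent.N575.QP

open NumberField IsDedekindDomain Finset Filter Topology Pool.Agent.H691R3 Pool.Agent.W223.AK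
open Pool.Agent.N906.NT (Cx cst)
open Pool.Agent.N906.KG

variable {K : Type} [Field K] [NumberField K]

/-! ### ideals -/

theorem lg (v : Pr K) : 0 < Real.log (Nv v) := Real.log_pos (by linarith [two_le_Nv v])

theorem len0 (a : Idl K) : 0 ≤ len a :=
  Finset.sum_nonneg fun v _ => mul_nonneg (Nat.cast_nonneg _) (lg v).le

theorem rl0 (a : Idl K) : 0 ≤ rl a :=
  Finset.sum_nonneg fun v _ => (lg v).le

/-- the squareful part of an ideal -/
noncomputable def sqf (a : Idl K) : Idl K := a.mapRange (fun n => if n = 1 then 0 else n) (by simp)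

theorem sqf_apply (a : Idl K) (v : Pr K) : sqf a v = if a v = 1 then 0 else a v := rfl

theorem sqf_le (a : Idl K) : sqf a ≤ a := by
  intro v
  rw [sqf_apply]
  split_ifs with h
  · exact Nat.zero_le _
  · exact le_rfl

theorem sqf_ne (a : Idl K) (v : Pr K) : sqf a v ≠ 1 := by
  rw [sqf_apply]
  split_ifs with h
  · exact zero_ne_one
  · exact h

theorem gain_eq (a : Idl K) {s : Finset (Pr K)} (hs : a.support ⊆ s) :
    len a - rl a = ∑ v ∈ s, ((a v - 1 : ℕ) : ℝ) * Real.log (Nv v) := by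
  unfold len rl
  rw [← Finset.sum_sub_distrib]
  rw [← Finset.sum_subset hs (f := fun v => ((a v - 1 : ℕ) : ℝ) * Real.log (Nv v))]
  · refine Finset.sum_congr rfl fun v hv => ?_
    have h1 : 1 ≤ a v := Nat.one_le_iff_ne_zero.mpr (Finsupp.mem_support_iff.mp hv)
    rw [Nat.cast_sub h1]
    push_cast
    ring
  · intro v _ hv
    rw [Finsupp.notMem_support_iff.1 hv]
    simp

theorem gain_sqf (a : Idl K) : len (sqf a) - rl (sqf a) = len a - rl a := by
  have hs : (sqf a).support ⊆ a.support := Finsupp.support_mapRange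
  rw [gain_eq (sqf a) hs, gain_eq a (Finset.Subset.refl _)]
  refine Finset.sum_congr rfl fun v _ => ?_
  rw [sqf_apply]
  split_ifs with h
  · rw [h]
  · rfl

theorem len_le_gain (a : Idl K) (h : ∀ v, a v ≠ 1) : len a ≤ 2 * (len a - rl a) := by
  rw [gain_eq a (Finset.Subset.refl _), Finset.mul_sum]
  unfold len
  refine Finset.sum_le_sum fun v hv => ?_
  have h1 : a v ≠ 0 := Finsupp.mem_support_iff.mp hv
  have h2 := h v
  have h3 : 1 ≤ a v := Nat.one_le_iff_ne_zero.mpr h1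
  have h4 : (2 : ℝ) ≤ a v := by
    have : 2 ≤ a v := by omega
    exact_mod_cast this
  rw [Nat.cast_sub h3]
  push_cast
  have := lg v
  nlinarith

/-! ### RANK for one ideal -/

theorem sp_one (a : Idl K) : sp (fun _ : Fin 1 => a) = a.support := by
  classical
  unfold sp
  ext v
  rw [mem_biUnion]
  constructor
  · rintro ⟨i, -, hi⟩
    exact hi
  · intro hi
    exact ⟨0, mem_univ _, hi⟩

theorem tl_one (a : Idl K) : tl (fun _ : Fin 1 => a) = len a := by
  unfold tl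
  rw [Fin.sum_univ_one]

theorem tr_one (a : Idl K) : tr (fun _ : Fin 1 => a) = rl a := by
  unfold tr
  rw [sp_one]
  rfl

theorem cx1 : Cx (univ : Finset (Finset (Fin 1))) 1 1 := by
  refine ⟨le_rfl, le_rfl, mem_univ _, fun s _ s' _ => mem_univ _, fun s _ => ?_, ?_⟩
  · exact (card_le_univ s).trans (by simp)
  · decide

theorem cst1 {W : ℝ} : cst 1 1 * W ^ (((1 : ℕ) : ℝ) / (((1 : ℕ) : ℝ) + 1)) = √(8 * W) := by
  unfold cst
  have e1 : (((1 : ℕ) : ℝ) + 1) / ((1 : ℕ) : ℝ) = 2 := by norm_num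
  have e2 : (2 * ((1 : ℕ) : ℝ) + 1) / (((1 : ℕ) : ℝ) + 1) = 3 / 2 := by norm_num
  have e3 : ((1 : ℕ) : ℝ) / (((1 : ℕ) : ℝ) + 1) = 1 / 2 := by norm_num
  have e4 : (((1 : ℕ) : ℝ)) ^ (1 / (((1 : ℕ) : ℝ) + 1)) = 1 := by
    rw [Nat.cast_one, Real.one_rpow]
  rw [e1, e2, e3, e4, mul_one, Real.sqrt_mul (by norm_num), Real.sqrt_eq_rpow, Real.sqrt_eq_rpow]
  congr 1
  rw [show (8 : ℝ) = 2 ^ (3 : ℝ) by norm_num, ← Real.rpow_mul (by norm_num)]
  norm_num

theorem rank1 (h3 : S_RANK K) {ε : ℝ} (hε : 0 < ε) : ∃ Z₀ : ℝ, 1 < Z₀ ∧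
    ∀ (Z T : ℝ) (F : Finset (Idl K)), Z₀ ≤ Z → T ≤ Z →
      (∀ a ∈ F, (∀ v, a v ≠ 1) ∧ T ≤ len a - rl a) →
      ∑ a ∈ F, Real.exp (-len a) ≤ Real.exp (-T + (1 + ε) * √(8 * (Z / Real.log Z))) := by
  classical
  obtain ⟨Z₀, hZ₀, hr⟩ := h3 1 univ 1 1 ε cx1 hε
  refine ⟨Z₀, hZ₀, fun Z T F hZ hT hF => ?_⟩
  have h := hr Z T (F.image fun a => fun _ : Fin 1 => a) hZ hT (by
    intro D hD
    obtain ⟨a, ha, rfl⟩ := mem_image.1 hD
    obtain ⟨h1, h2⟩ := hF a ha
    refine ⟨fun v => mem_univ _, fun v => ?_, ?_⟩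
    · rw [Fin.sum_univ_one]
      exact h1 v
    · unfold gl
      rw [tl_one, tr_one]
      exact h2)
  rw [Finset.sum_image (by
    intro a _ b _ hab
    exact congrFun hab 0)] at h
  simp only [tl_one] at h
  rw [mul_assoc, cst1] at h
  exact h

/-! ### codes -/

variable {q : ℕ}

/-- the sum of the closeness parameters at the places with the index `l` -/
noncomputable def kl (S : Finset (Pr K)) (c : ℕ × (Pl K → Fin q) × (Pl K → ℕ)) (l : Fin q) : ℝ :=
  ∑ v ∈ Spl S, if c.2.1 v = l then (c.2.2 v : ℝ) else 0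

/-- the sum of the closeness parameters -/
noncomputable def kt (S : Finset (Pr K)) (c : ℕ × (Pl K → Fin q) × (Pl K → ℕ)) : ℝ :=
  ∑ v ∈ Spl S, (c.2.2 v : ℝ)

theorem kl_sum (S : Finset (Pr K)) (c : ℕ × (Pl K → Fin q) × (Pl K → ℕ)) :
    ∑ l, kl S c l = kt S c := by
  unfold kl kt
  rw [Finset.sum_comm]
  refine Finset.sum_congr rfl fun v _ => ?_
  rw [Finset.sum_ite_eq]
  simp

theorem kt0 (S : Finset (Pr K)) (c : ℕ × (Pl K → Fin q) × (Pl K → ℕ)) : 0 ≤ kt S c :=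
  Finset.sum_nonneg fun _ _ => Nat.cast_nonneg _

theorem kl0 (S : Finset (Pr K)) (c : ℕ × (Pl K → Fin q) × (Pl K → ℕ)) (l : Fin q) :
    0 ≤ kl S c l := by
  refine Finset.sum_nonneg fun v _ => ?_
  split_ifs
  · exact Nat.cast_nonneg _
  · exact le_rfl

/-- the point `x` has the code `c` -/
structure Ic (α : Fin q → K × K) (S : Finset (Pr K)) (C : ℝ)
    (c : ℕ × (Pl K → Fin q) × (Pl K → ℕ)) (x : K) : Prop where
  up : hr (aff x) ≤ c.1
  dn : (c.1 : ℝ) - 1 ≤ hr (aff x)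
  cl : ∀ v ∈ Spl S, (c.2.2 v : ℝ) ≤ lam v (aff x) (α (c.2.1 v)) + loss v
  ge : ∀ P, IsP S α x P → ∀ l, hr (aff x) - kl S c l - C ≤ len (P l)
  le : ∀ P, IsP S α x P → tl P ≤ q * hr (aff x) - kt S c + C

theorem codes (h1 : S_BASQ K) {α : Fin q → K × K} (hq : 1 ≤ q) (hα : Al α)
    {S : Finset (Pr K)} (hS : Gd S α) :
    ∃ C : ℝ, 0 < C ∧
    ∀ X : ℝ, 0 ≤ X → ∃ T : Finset (ℕ × (Pl K → Fin q) × (Pl K → ℕ)),
      (T.card : ℝ) ≤ C * (X + C) ^ (1 + (Spl S).card) ∧ (∀ c ∈ T, (c.1 : ℝ) ≤ X + 1) ∧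
      ∀ x, Of α x → hr (aff x) ≤ X → ∃ c ∈ T, Ic α S C c x := by
  classical
  obtain ⟨C₀, hC₀, hb⟩ := (h1 q α hq hα).2 S hS
  obtain ⟨s, hs⟩ : ∃ s : Finset (Pl K), s = Spl S := ⟨_, rfl⟩
  obtain ⟨Λ, hΛ⟩ : ∃ Λ : ℝ, Λ = ∑ v ∈ s, loss v := ⟨_, rfl⟩
  have hΛ0 : 0 ≤ Λ := by rw [hΛ]; exact Finset.sum_nonneg fun v _ => loss_nonneg v
  have hΛv : ∀ v ∈ s, loss v ≤ Λ := by
    intro v hv
    rw [hΛ]
    exact Finset.single_le_sum (f := fun v => loss v) (fun v _ => loss_nonneg v) hv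
  obtain ⟨A, hA⟩ : ∃ A : ℝ, A = ∑ l, |hr (α l)| := ⟨_, rfl⟩
  have hA0 : 0 ≤ A := by rw [hA]; exact Finset.sum_nonneg fun _ _ => abs_nonneg _
  have hAl : ∀ l, |hr (α l)| ≤ A := by
    intro l
    rw [hA]
    exact Finset.single_le_sum (f := fun l => |hr (α l)|) (fun _ _ => abs_nonneg _) (mem_univ l)
  have hs0 : (0 : ℝ) ≤ s.card := Nat.cast_nonneg _
  have hq0 : (0 : ℝ) ≤ q := Nat.cast_nonneg _
  have hqs : (0 : ℝ) ≤ (q : ℝ) ^ s.card := by positivity
  have hsq : 0 ≤ (s.card : ℝ) * (1 + C₀) := by positivity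
  have hqL : 0 ≤ (q : ℝ) * Λ := by positivity
  obtain ⟨C, hC⟩ : ∃ C : ℝ, C = 2 + C₀ + Λ + A + s.card * (1 + C₀) + q * Λ + (q : ℝ) ^ s.card :=
    ⟨_, rfl⟩
  have hC0 : 0 < C := by rw [hC]; linarith
  refine ⟨C, hC0, ?_⟩
  intro X hX
  rw [← hs]
  obtain ⟨N, hN⟩ : ∃ N : ℕ, N = ⌊X + C₀ + Λ⌋₊ + 1 := ⟨_, rfl⟩
  obtain ⟨t₀, -⟩ : ∃ t : Fin q, True := ⟨⟨0, hq⟩, trivial⟩
  obtain ⟨ext, hext⟩ : ∃ ext : ℕ × (s → Fin q) × (s → ℕ) → ℕ × (Pl K → Fin q) × (Pl K → ℕ),
      ext = fun c => (c.1, (fun v => if h : v ∈ s then c.2.1 ⟨v, h⟩ else t₀),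
        (fun v => if h : v ∈ s then c.2.2 ⟨v, h⟩ else 0)) := ⟨_, rfl⟩
  refine ⟨(range (⌈X⌉₊ + 1) ×ˢ ((univ : Finset (s → Fin q)) ×ˢ
    Fintype.piFinset (fun _ : s => range N))).image ext, ?_, ?_, ?_⟩
  · refine (Nat.cast_le.2 card_image_le).trans ?_
    rw [card_product, card_product, card_univ, Fintype.card_piFinset, Finset.prod_const,
      Fintype.card_fun, Fintype.card_fin, card_range, card_range, card_univ,
      Fintype.card_coe]
    push_cast
    have e1 : ((⌈X⌉₊ : ℕ) : ℝ) + 1 ≤ X + C := by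
      have := (Nat.ceil_lt_add_one hX).le
      linarith
    have e2 : (N : ℝ) ≤ X + C := by
      rw [hN]
      push_cast
      have := Nat.floor_le (show 0 ≤ X + C₀ + Λ by linarith)
      linarith
    calc ((⌈X⌉₊ : ℝ) + 1) * ((q : ℝ) ^ s.card * (N : ℝ) ^ s.card)
        ≤ (X + C) * (C * (X + C) ^ s.card) := by
          apply mul_le_mul e1 _ (by positivity) (by linarith)
          apply mul_le_mul _ _ (by positivity) hC0.le
          · linarith
          · exact pow_le_pow_left₀ (Nat.cast_nonneg _) e2 _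
      _ = C * (X + C) ^ (1 + s.card) := by rw [pow_add]; ring
  · intro c hc
    obtain ⟨d, hd, rfl⟩ := mem_image.1 hc
    rw [mem_product, mem_range] at hd
    have h5 : d.1 ≤ ⌈X⌉₊ := by omega
    have h6 := (Nat.ceil_lt_add_one hX).le
    have h7 : (d.1 : ℝ) ≤ (⌈X⌉₊ : ℝ) := by exact_mod_cast h5
    have h8 : (ext d).1 = d.1 := by rw [hext]
    rw [h8]
    linarith
  · intro x hx hxX
    obtain ⟨-, h2, h3, h4⟩ := hb x hx
    rw [← hs] at h3 h4
    have h5 : ∀ v : Pl K, ∃ τ : Fin q, v ∈ s → ∀ l, l ≠ τ → lam v (aff x) (α l) ≤ C₀ := by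
      intro v
      by_cases hv : v ∈ s
      · obtain ⟨τ, hτ⟩ := (h3 v hv).2
        exact ⟨τ, fun _ => hτ⟩
      · exact ⟨t₀, fun h => absurd h hv⟩
    choose τ hτ using h5
    have hk0 : ∀ v ∈ s, 0 ≤ lam v (aff x) (α (τ v)) + loss v := by
      intro v hv
      have := (h3 v hv).1 (τ v)
      linarith
    obtain ⟨c, hc⟩ : ∃ c, c = ext (⌈hr (aff x)⌉₊, (fun v => τ v.1),
      (fun v => ⌊lam v.1 (aff x) (α (τ v.1)) + loss v.1⌋₊)) := ⟨_, rfl⟩
    have hτe : ∀ v ∈ s, c.2.1 v = τ v := by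
      intro v hv
      rw [hc, hext]
      simp only [dif_pos hv]
    have hke : ∀ v ∈ s, c.2.2 v = ⌊lam v (aff x) (α (τ v)) + loss v⌋₊ := by
      intro v hv
      rw [hc, hext]
      simp only [dif_pos hv]
    have hme : c.1 = ⌈hr (aff x)⌉₊ := by
      rw [hc, hext]
    refine ⟨c, ?_, ?_⟩
    · rw [hc]
      refine mem_image_of_mem _ ?_
      rw [mem_product, mem_product, mem_range, Fintype.mem_piFinset]
      refine ⟨Nat.lt_succ_of_le (Nat.ceil_le_ceil hxX), mem_univ _, fun v => ?_⟩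
      rw [mem_range, hN]
      apply Nat.lt_succ_of_le
      apply Nat.floor_le_floor
      have h6 := h4 v.1 v.2 (τ v.1)
      have h7 := hΛv v.1 v.2
      linarith
    · refine ⟨?_, ?_, ?_, ?_, ?_⟩
      · rw [hme]; exact Nat.le_ceil _
      · rw [hme]
        have := (Nat.ceil_lt_add_one (hr_aff_nonneg x)).le
        linarith
      · intro v hv
        rw [← hs] at hv
        rw [hτe v hv, hke v hv]
        exact Nat.floor_le (hk0 v hv)
      · intro P hP l
        have h7 := Pool.Agent.N954.KG.sum_formula hα hx hP l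
        have h8 := (abs_le.1 (hAl l)).1
        have h9 : ∑ v ∈ Spl S, lam v (aff x) (α l) ≤ kl S c l + s.card * (1 + C₀) := by
          unfold kl
          rw [← hs]
          have h10 : (s.card : ℝ) * (1 + C₀) = ∑ _v ∈ s, (1 + C₀) := by
            rw [Finset.sum_const, nsmul_eq_mul]
          rw [h10, ← Finset.sum_add_distrib]
          refine Finset.sum_le_sum fun v hv => ?_
          rw [hτe v hv, hke v hv]
          split_ifs with h
          · have h11 := (Nat.lt_floor_add_one (lam v (aff x) (α (τ v)) + loss v)).le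
            have h12 := loss_nonneg v
            rw [h] at h11 ⊢
            linarith
          · have := hτ v hv l (fun h' => h h'.symm)
            linarith
        rw [hC]
        linarith
      · intro P hP
        obtain ⟨-, h7, -⟩ := h2 P hP
        rw [← hs] at h7
        have h8 := (abs_le.1 h7).1
        have h9 : kt S c - q * Λ ≤ ∑ l, ∑ v ∈ s, lam v (aff x) (α l) := by
          rw [Finset.sum_comm]
          have h10 : kt S c - q * Λ = ∑ v ∈ s, ((c.2.2 v : ℝ) - q * loss v) := by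
            unfold kt
            rw [Finset.sum_sub_distrib, ← Finset.mul_sum, ← hΛ, ← hs]
          rw [h10]
          refine Finset.sum_le_sum fun v hv => ?_
          rw [hke v hv]
          have h11 := Nat.floor_le (hk0 v hv)
          have h12 : ∑ l, (lam v (aff x) (α l) + loss v) =
              ∑ l, lam v (aff x) (α l) + q * loss v := by
            rw [Finset.sum_add_distrib, Finset.sum_const, Finset.card_univ, Fintype.card_fin,
              nsmul_eq_mul]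
          have h13 : lam v (aff x) (α (τ v)) + loss v ≤ ∑ l, (lam v (aff x) (α l) + loss v) :=
            Finset.single_le_sum (f := fun l => lam v (aff x) (α l) + loss v) (fun l _ => by
              have := (h3 v hv).1 l
              linarith) (mem_univ (τ v))
          linarith
        rw [hC]
        linarith

/-! ### the bound for one code -/

/-- the cell bound -/
def CB (α : Fin q → K × K) (S : Finset (Pr K)) (C : ℝ) : Prop :=
  ∀ (X : ℝ) (D : Fin q → Idl K) (τ : Pl K → Fin q) (s : Pl K → ℝ) (F : Finset K),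
    0 ≤ X → (∀ v ∈ Spl S, 0 ≤ s v) → (∀ l, OffS S (D l)) →
    (∀ x ∈ F, Of α x ∧ hr (aff x) ≤ X ∧ (∀ v ∈ Spl S, s v ≤ lam v (aff x) (α (τ v)) + loss v) ∧
      ∃ P, IsP S α x P ∧ ∀ l, D l ≤ P l) →
    (F.card : ℝ) ≤ C * (Real.exp (2 * X - tl D - ∑ v ∈ Spl S, s v) + 1)

theorem cell_code {α : Fin q → K × K} {S : Finset (Pr K)} {A C : ℝ} (hA : 0 ≤ A) (h : CB α S A)
    {c : ℕ × (Pl K → Fin q) × (Pl K → ℕ)} {D : Fin q → Idl K} {F : Finset K}
    (hF : ∀ x ∈ F, Of α x ∧ Ic α S C c x ∧ ∃ P, IsP S α x P ∧ ∀ l, D l ≤ P l) :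
    (F.card : ℝ) ≤ A * (Real.exp (2 * c.1 - tl D - kt S c) + 1) := by
  rcases F.eq_empty_or_nonempty with rfl | ⟨x₀, hx₀⟩
  · rw [card_empty]
    push_cast
    positivity
  · refine h c.1 D c.2.1 (fun v => (c.2.2 v : ℝ)) F (Nat.cast_nonneg _)
      (fun v _ => Nat.cast_nonneg _) ?_ ?_
    · obtain ⟨-, -, P, hP, hD⟩ := hF x₀ hx₀
      intro l v hv
      have h1 := hP.1 l v hv
      have h2 := hD l v
      omega
    · intro x hx
      obtain ⟨h1, h2, h3⟩ := hF x hx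
      exact ⟨h1, h2.up, h2.cl, h3⟩

theorem tr_le_rl {n : ℕ} (P : Fin n → Idl K) : tr P ≤ ∑ l, rl (P l) := by
  classical
  have h1 : ∀ l, rl (P l) = ∑ v ∈ sp P, if v ∈ (P l).support then Real.log (Nv v) else 0 := by
    intro l
    unfold rl
    rw [← Finset.sum_filter]
    congr 1
    ext v
    rw [mem_filter]
    refine ⟨fun h => ⟨?_, h⟩, fun h => h.2⟩
    unfold sp
    rw [mem_biUnion]
    exact ⟨l, mem_univ _, h⟩
  rw [Finset.sum_congr rfl fun l _ => h1 l, Finset.sum_comm]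
  unfold tr
  refine Finset.sum_le_sum fun v hv => ?_
  unfold sp at hv
  obtain ⟨l, -, hl⟩ := mem_biUnion.1 hv
  refine le_trans ?_ (Finset.single_le_sum
    (f := fun l => if v ∈ (P l).support then Real.log (Nv v) else 0) (fun l _ => ?_) (mem_univ l))
  · rw [if_pos hl]
  · split_ifs
    · exact (lg v).le
    · exact le_rfl

theorem cls {α : Fin q → K × K} {S : Finset (Pr K)} {κ : Fin q → ℝ} {A C C₀ κ' X : ℝ}
    {R Z : Fin q → ℝ} (hA : 0 ≤ A) (hC : 0 ≤ C) (hC₀ : 0 ≤ C₀) (hκ0 : ∀ l, 0 ≤ κ l)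
    (hκ1 : ∀ l, κ l ≤ 1) (hκs : ∑ l, κ l ≤ 2) (hκ' : κ' ≤ 1) (h : CB α S A)
    (hZ : ∀ l, κ l * (X + 1) ≤ Z l)
    (hrank : ∀ l (T : ℝ) (F : Finset (Idl K)), T ≤ Z l →
      (∀ a ∈ F, (∀ v, a v ≠ 1) ∧ T ≤ len a - rl a) →
      ∑ a ∈ F, Real.exp (-len a) ≤ Real.exp (-T + R l))
    {c : ℕ × (Pl K → Fin q) × (Pl K → ℕ)} (hc : (c.1 : ℝ) ≤ X + 1)
    {G : Finset K} (hG : ∀ x ∈ G, Of α x ∧ Ic α S C c x ∧
      ∃ P, IsP S α x P ∧ (∀ l, rl (P l) ≤ (1 - κ l) * hr (aff x) + C₀) ∧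
        ((q : ℝ) - κ') * hr (aff x) ≤ tr P) :
    (G.card : ℝ) ≤ A * (1 + Real.exp (2 * C)) * Real.exp (q * (1 + C + C₀)) *
      Real.exp ((2 - ∑ l, κ l) * (X + 1) + ∑ l, R l) := by
  classical
  have hP' : ∀ x : K, ∃ P : Fin q → Idl K, x ∈ G → IsP S α x P ∧
      (∀ l, rl (P l) ≤ (1 - κ l) * hr (aff x) + C₀) ∧ ((q : ℝ) - κ') * hr (aff x) ≤ tr P := by
    intro x
    by_cases hx : x ∈ G
    · obtain ⟨P, hP⟩ := (hG x hx).2.2
      exact ⟨P, fun _ => hP⟩
    · exact ⟨0, fun h => absurd h hx⟩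
  choose P hP using hP'
  obtain ⟨D, hD⟩ : ∃ D : K → Fin q → Idl K, D = fun x l => sqf (P x l) := ⟨_, rfl⟩
  obtain ⟨m, hm⟩ : ∃ m : ℝ, m = (c.1 : ℝ) := ⟨_, rfl⟩
  obtain ⟨T, hT⟩ : ∃ T : Fin q → ℝ, T = fun l => κ l * m - kl S c l - (1 + C + C₀) := ⟨_, rfl⟩
  have hm0 : 0 ≤ m := by rw [hm]; exact Nat.cast_nonneg _
  rw [← hm] at hc
  have hT1 : ∀ l, T l ≤ Z l := by
    intro l
    rw [hT]
    have h1 := kl0 S c l
    have h2 := hZ l
    have h3 : κ l * m ≤ κ l * (X + 1) := mul_le_mul_of_nonneg_left hc (hκ0 l)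
    linarith
  have g1 : ∀ x ∈ G, ∀ l, T l ≤ len (D x l) - rl (D x l) := by
    intro x hx l
    obtain ⟨-, i1, -⟩ := hG x hx
    obtain ⟨i2, i3, -⟩ := hP x hx
    rw [hD, hT]
    simp only
    rw [gain_sqf]
    have e1 := i1.ge (P x) i2 l
    have e2 := i3 l
    have e3 := i1.dn
    rw [← hm] at e3
    have e4 := hκ0 l
    have e5 := hκ1 l
    have e6 : κ l * (m - 1) ≤ κ l * hr (aff x) := mul_le_mul_of_nonneg_left e3 e4
    linarith
  have g2 : ∀ x ∈ G, tl (D x) + kt S c ≤ 2 * m + 2 * C := by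
    intro x hx
    obtain ⟨-, i1, -⟩ := hG x hx
    obtain ⟨i2, -, i3⟩ := hP x hx
    have e1 : tl (D x) ≤ 2 * (tl (P x) - ∑ l, rl (P x l)) := by
      unfold tl
      rw [← Finset.sum_sub_distrib, Finset.mul_sum]
      refine Finset.sum_le_sum fun l _ => ?_
      rw [hD]
      simp only
      rw [← gain_sqf (P x l)]
      exact len_le_gain _ (sqf_ne _)
    have e2 := tr_le_rl (P x)
    have e3 := i1.le (P x) i2
    have e4 := i1.up
    rw [← hm] at e4
    have e5 := hr_aff_nonneg x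
    have e6 := kt0 S c
    have e7 : κ' * hr (aff x) ≤ 1 * hr (aff x) := mul_le_mul_of_nonneg_right hκ' e5
    linarith
  obtain ⟨L, hL⟩ : ∃ L : Finset (Fin q → Idl K), L = G.image D := ⟨_, rfl⟩
  have hterm : ∀ E ∈ L, ((#{x ∈ G | D x = E} : ℕ) : ℝ) ≤
      A * (1 + Real.exp (2 * C)) * Real.exp (2 * m - kt S c) * Real.exp (-tl E) := by
    intro E hE
    rw [hL] at hE
    obtain ⟨x₀, hx₀, hE₀⟩ := mem_image.1 hE
    have b0 := g2 x₀ hx₀
    rw [hE₀] at b0
    have b1 := cell_code (D := E) (F := {x ∈ G | D x = E}) (C := C) (c := c) hA h (by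
      intro x hx
      rw [mem_filter] at hx
      obtain ⟨i1, i2, -⟩ := hG x hx.1
      refine ⟨i1, i2, P x, (hP x hx.1).1, fun l => ?_⟩
      rw [← hx.2, hD]
      exact sqf_le _)
    refine b1.trans ?_
    rw [← hm]
    have b2 : (1 : ℝ) ≤ Real.exp (2 * C) * Real.exp (2 * m - tl E - kt S c) := by
      rw [← Real.exp_add]
      apply Real.one_le_exp
      linarith
    have b3 : Real.exp (2 * m - tl E - kt S c) = Real.exp (2 * m - kt S c) * Real.exp (-tl E) := by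
      rw [← Real.exp_add]
      congr 1
      ring
    calc A * (Real.exp (2 * m - tl E - kt S c) + 1)
        ≤ A * ((1 + Real.exp (2 * C)) * Real.exp (2 * m - tl E - kt S c)) := by
          apply mul_le_mul_of_nonneg_left _ hA
          linarith
      _ = _ := by rw [b3]; ring
  have hsum : ∑ E ∈ L, Real.exp (-tl E) ≤ Real.exp (∑ l, (-T l + R l)) := by
    have s1 : L ⊆ Fintype.piFinset fun l => L.image fun E => E l := by
      intro E hE
      rw [Fintype.mem_piFinset]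
      intro l
      exact mem_image_of_mem _ hE
    refine (Finset.sum_le_sum_of_subset_of_nonneg s1 fun _ _ _ => (Real.exp_pos _).le).trans ?_
    have s2 : ∀ E : Fin q → Idl K, Real.exp (-tl E) = ∏ l, Real.exp (-len (E l)) := by
      intro E
      rw [← Real.exp_sum]
      unfold tl
      rw [Finset.sum_neg_distrib]
    rw [Finset.sum_congr rfl fun E _ => s2 E,
      ← Finset.prod_univ_sum (fun l => L.image fun E => E l) (fun _ a => Real.exp (-len a)),
      Real.exp_sum]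
    refine Finset.prod_le_prod (fun l _ => Finset.sum_nonneg fun _ _ => (Real.exp_pos _).le)
      fun l _ => ?_
    refine hrank l (T l) _ (hT1 l) fun a ha => ?_
    obtain ⟨E, hE, rfl⟩ := mem_image.1 ha
    rw [hL] at hE
    obtain ⟨x, hx, rfl⟩ := mem_image.1 hE
    refine ⟨fun v => ?_, g1 x hx l⟩
    rw [hD]
    exact sqf_ne _ v
  have hTs : ∑ l, (-T l + R l) = -(∑ l, κ l) * m + kt S c + q * (1 + C + C₀) + ∑ l, R l := by
    rw [Finset.sum_add_distrib, Finset.sum_neg_distrib, hT, Finset.sum_sub_distrib,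
      Finset.sum_sub_distrib, ← Finset.sum_mul, kl_sum, Finset.sum_const, Finset.card_univ,
      Fintype.card_fin, nsmul_eq_mul]
    ring
  rw [card_eq_sum_card_image D G, ← hL]
  push_cast
  refine (Finset.sum_le_sum hterm).trans ?_
  rw [← Finset.mul_sum]
  obtain ⟨B, hB⟩ : ∃ B : ℝ, B = A * (1 + Real.exp (2 * C)) := ⟨_, rfl⟩
  have hB0 : 0 ≤ B := by rw [hB]; positivity
  rw [← hB]
  calc B * Real.exp (2 * m - kt S c) * ∑ E ∈ L, Real.exp (-tl E)
      ≤ B * Real.exp (2 * m - kt S c) * Real.exp (∑ l, (-T l + R l)) :=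
        mul_le_mul_of_nonneg_left hsum (by positivity)
    _ = B * Real.exp ((2 - ∑ l, κ l) * m + q * (1 + C + C₀) + ∑ l, R l) := by
        rw [mul_assoc, ← Real.exp_add, hTs]
        congr 2
        ring
    _ ≤ B * Real.exp (q * (1 + C + C₀) + ((2 - ∑ l, κ l) * (X + 1) + ∑ l, R l)) := by
        apply mul_le_mul_of_nonneg_left _ hB0
        apply Real.exp_le_exp.2
        have : (2 - ∑ l, κ l) * m ≤ (2 - ∑ l, κ l) * (X + 1) :=
          mul_le_mul_of_nonneg_left hc (by linarith)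
        linarith
    _ = _ := by rw [Real.exp_add]; ring

/-! ### asymptotics -/

theorem a1 {z η : ℝ} (hz : 0 < z) (hη : 0 < η) :
    ∀ᶠ X : ℝ in atTop, √(8 * (z * (X + 1) / Real.log (z * (X + 1)))) ≤
      (1 + η) * (√z * √(8 * X / Real.log X)) := by
  obtain ⟨δ, hδ⟩ : ∃ δ : ℝ, δ = η / (2 + η) := ⟨_, rfl⟩
  have hδ0 : 0 < δ := by rw [hδ]; positivity
  have hδ1 : δ < 1 := by rw [hδ, div_lt_one (by positivity)]; linarith
  have hδ2 : 1 + δ = (1 + η) * (1 - δ) := by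
    rw [hδ]; field_simp; ring
  filter_upwards [Real.tendsto_log_atTop.eventually_ge_atTop (-Real.log z / δ),
    eventually_ge_atTop (1 / δ), eventually_ge_atTop (1 : ℝ),
    Real.tendsto_log_atTop.eventually_ge_atTop 1] with X h1 h2 h3 h4
  have hX0 : 0 < X := by linarith
  have hl : 0 < Real.log X := by linarith
  have h5 : (1 - δ) * Real.log X ≤ Real.log (z * (X + 1)) := by
    have h6 : Real.log (z * X) ≤ Real.log (z * (X + 1)) :=
      Real.log_le_log (by positivity) (by nlinarith)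
    rw [Real.log_mul hz.ne' hX0.ne'] at h6
    rw [div_le_iff₀ hδ0] at h1
    linarith
  have h6 : X + 1 ≤ (1 + δ) * X := by
    rw [div_le_iff₀ hδ0] at h2
    nlinarith
  have h7 : 0 < (1 - δ) * Real.log X := mul_pos (by linarith) hl
  have h8 : z * (X + 1) / Real.log (z * (X + 1)) ≤ (1 + η) * (z * X / Real.log X) := by
    calc z * (X + 1) / Real.log (z * (X + 1)) ≤ z * ((1 + δ) * X) / ((1 - δ) * Real.log X) := by
          apply div_le_div₀ (by positivity) _ h7 h5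
          exact mul_le_mul_of_nonneg_left h6 hz.le
      _ = (1 + η) * (z * X / Real.log X) := by
          have : (1 - δ) ≠ 0 := by linarith
          rw [hδ2]
          field_simp
  have h9 : (1 + η) * (√z * √(8 * X / Real.log X)) = √((1 + η) ^ 2 * (z * (8 * X / Real.log X))) := by
    rw [Real.sqrt_mul (by positivity), Real.sqrt_sq (by positivity), Real.sqrt_mul hz.le]
  rw [h9]
  apply Real.sqrt_le_sqrt
  have h10 : 0 ≤ z * X / Real.log X := by positivity
  calc 8 * (z * (X + 1) / Real.log (z * (X + 1))) ≤ 8 * ((1 + η) * (z * X / Real.log X)) := by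
        linarith
    _ ≤ 8 * ((1 + η) ^ 2 * (z * X / Real.log X)) := by
        apply mul_le_mul_of_nonneg_left _ (by norm_num)
        apply mul_le_mul_of_nonneg_right _ h10
        nlinarith
    _ = _ := by ring

theorem poly {η A : ℝ} (hη : 0 < η) (hA : 0 < A) (n : ℕ) :
    ∀ᶠ X : ℝ in atTop, A * (X + A) ^ n ≤ Real.exp (η * √(8 * X / Real.log X)) := by
  have hc : (0 : ℝ) < 8 * η ^ 2 / ((2 * n + 1 : ℕ) : ℝ) ^ 2 := by positivity
  have e1 := (Real.isLittleO_pow_log_id_atTop (n := 3)).bound hc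
  filter_upwards [e1, eventually_ge_atTop A, eventually_ge_atTop (2 : ℝ),
    Real.tendsto_log_atTop.eventually_ge_atTop 1] with X h1 h2 h3 h4
  have hX0 : 0 < X := by linarith
  have hl0 : 0 < Real.log X := by linarith
  rw [Real.norm_of_nonneg (by positivity), id, Real.norm_of_nonneg hX0.le] at h1
  have h5 : A * (X + A) ^ n ≤ X ^ (2 * n + 1) := by
    calc A * (X + A) ^ n ≤ X * (X ^ 2) ^ n := by
          apply mul_le_mul h2 (pow_le_pow_left₀ (by linarith) (by nlinarith) n) (by positivity)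
            hX0.le
      _ = X ^ (2 * n + 1) := by rw [← pow_mul]; ring
  refine h5.trans ?_
  have h6 : X ^ (2 * n + 1) = Real.exp (((2 * n + 1 : ℕ) : ℝ) * Real.log X) := by
    rw [← Real.log_pow, Real.exp_log (by positivity)]
  rw [h6]
  apply Real.exp_le_exp.2
  have h7 : ((2 * n + 1 : ℕ) : ℝ) * Real.log X / η ≤ √(8 * X / Real.log X) := by
    apply Real.le_sqrt_of_sq_le
    rw [le_div_iff₀ hl0, div_pow, mul_pow]
    have hN : (0 : ℝ) < ((2 * n + 1 : ℕ) : ℝ) := by positivity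
    rw [div_mul_eq_mul_div, div_le_iff₀ (by positivity)]
    have h8 : Real.log X ^ 3 * ((2 * n + 1 : ℕ) : ℝ) ^ 2 ≤ 8 * η ^ 2 * X := by
      calc Real.log X ^ 3 * ((2 * n + 1 : ℕ) : ℝ) ^ 2
          ≤ (8 * η ^ 2 / ((2 * n + 1 : ℕ) : ℝ) ^ 2 * X) * ((2 * n + 1 : ℕ) : ℝ) ^ 2 :=
            mul_le_mul_of_nonneg_right h1 (by positivity)
        _ = 8 * η ^ 2 * X := by field_simp
    nlinarith
  rw [div_le_iff₀ hη] at h7
  linarith

theorem a2 {κ : Fin q → ℝ} (hκ : ∀ l, 0 ≤ κ l) {η : ℝ} (hη : 0 < η) (hq : 1 ≤ q)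
    (hs : 0 < ∑ l, √(κ l)) : ∃ z : Fin q → ℝ, (∀ l, 0 < z l ∧ κ l ≤ z l) ∧
      ∑ l, √(z l) ≤ (1 + η) * ∑ l, √(κ l) := by
  obtain ⟨w, hw⟩ : ∃ w : ℝ, w = η * (∑ l, √(κ l)) / q := ⟨_, rfl⟩
  have hq0 : (0 : ℝ) < q := by exact_mod_cast hq
  have hw0 : 0 < w := by rw [hw]; positivity
  refine ⟨fun l => κ l + w ^ 2, fun l => ⟨?_, ?_⟩, ?_⟩
  · have := hκ l
    positivity
  · have : 0 ≤ w ^ 2 := by positivity
    simp only
    linarith
  · have h1 : ∀ l, √(κ l + w ^ 2) ≤ √(κ l) + w := by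
      intro l
      apply Real.sqrt_le_iff.2
      have h2 := Real.sqrt_nonneg (κ l)
      have h3 := Real.sq_sqrt (hκ l)
      refine ⟨by positivity, ?_⟩
      nlinarith
    calc ∑ l, √(κ l + w ^ 2) ≤ ∑ l, (√(κ l) + w) := Finset.sum_le_sum fun l _ => h1 l
      _ = ∑ l, √(κ l) + q * w := by
          rw [Finset.sum_add_distrib, Finset.sum_const, Finset.card_univ, Fintype.card_fin,
            nsmul_eq_mul]
      _ = _ := by
          rw [hw]
          field_simp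

/-- UPJ: the joint upper bound -/
theorem upj (K : Type) [Field K] [NumberField K] (q : ℕ) (κ₁ : ℝ) (hq : 1 ≤ q) (hκ₁ : κ₁ ≤ 1)
    (h1 : S_BASQ K) (h2 : S_CELLQ K) (h3 : S_RANK K) (h4 : S_BIGQ K q κ₁) : S_UPJ K q κ₁ := by
  classical
  intro α S κ ε C₀ hα hS hκ0 hκp hκl hε hC₀
  -- constants
  obtain ⟨t, ht⟩ : ∃ t : ℝ, t = ∑ l, κ l := ⟨_, rfl⟩
  rw [← ht] at hκp hκl
  have hκ1 : ∀ l, κ l ≤ 1 := by
    intro l
    have := Finset.single_le_sum (f := κ) (fun l _ => hκ0 l) (mem_univ l)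
    rw [← ht] at this
    linarith
  obtain ⟨δ, hδ⟩ : ∃ δ : ℝ, δ = (κ₁ - t) / 2 := ⟨_, rfl⟩
  have hδ0 : 0 < δ := by rw [hδ]; linarith
  obtain ⟨σ, hσ⟩ : ∃ σ : ℝ, σ = ∑ l, √(κ l) := ⟨_, rfl⟩
  have hσ0 : 0 < σ := by
    rw [hσ]
    refine lt_of_le_of_ne (Finset.sum_nonneg fun l _ => Real.sqrt_nonneg _) fun h => ?_
    have h5 := (Finset.sum_eq_zero_iff_of_nonneg fun l _ => Real.sqrt_nonneg (κ l)).1 h.symm
    have h6 : t = 0 := by
      rw [ht]
      refine Finset.sum_eq_zero fun l hl => ?_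
      exact (Real.sqrt_eq_zero (hκ0 l)).1 (h5 l hl)
    linarith
  obtain ⟨η, hη⟩ : ∃ η : ℝ, η = min 1 (ε / 14) := ⟨_, rfl⟩
  have hη0 : 0 < η := by rw [hη]; exact lt_min one_pos (by positivity)
  have hη1 : η ≤ 1 := by rw [hη]; exact min_le_left _ _
  have hη2 : η ≤ ε / 14 := by rw [hη]; exact min_le_right _ _
  have hη3 : (1 + η) * ((1 + η) * (1 + η)) ≤ 1 + ε / 2 := by
    have w1 : η * η ≤ η * 1 := mul_le_mul_of_nonneg_left hη1 hη0.le
    have w2 : η * η * η ≤ η * 1 * 1 := by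
      apply mul_le_mul w1 hη1 hη0.le (by positivity)
    linarith
  obtain ⟨z, hz, hzs⟩ := a2 hκ0 hη0 hq (by rw [← hσ]; exact hσ0)
  rw [← hσ] at hzs
  obtain ⟨C, hC, hcodes⟩ := codes h1 hq hα hS
  obtain ⟨A, hA, hcell⟩ := h2 q α S hα hS
  obtain ⟨Z₀, hZ₀, hrank⟩ := rank1 h3 hη0
  obtain ⟨D, hD, hbig⟩ := h4 α S (t + δ) δ 0 hα hS (by linarith) (by rw [hδ]; linarith) hδ0
  obtain ⟨B, hB⟩ : ∃ B : ℝ, B = A * (1 + Real.exp (2 * C)) * Real.exp (q * (1 + C + C₀)) *
    Real.exp 2 := ⟨_, rfl⟩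
  have hB0 : 0 < B := by rw [hB]; positivity
  obtain ⟨s, hs⟩ : ∃ s : ℕ, s = (Spl S).card := ⟨_, rfl⟩
  obtain ⟨E, hE⟩ : ∃ E : ℝ, E = D + C * B + C + 1 := ⟨_, rfl⟩
  have hE0 : 0 < E := by rw [hE]; positivity
  have hCB : 0 < C * B := by positivity
  have ev := (poly (A := E) (η := ε / 2 * σ) (by positivity) hE0 (1 + s)).and
    (((eventually_all.2 fun l => a1 (hz l).1 hη0).and
      (eventually_all.2 fun l => eventually_ge_atTop (Z₀ / z l))).and
      (eventually_ge_atTop (1 : ℝ)))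
  obtain ⟨X₀, hX₀⟩ := eventually_atTop.1 ev
  refine ⟨max X₀ 2, lt_max_of_lt_right (by norm_num), fun X F hX hF => ?_⟩
  obtain ⟨hpoly, ⟨ha1, hXZ⟩, hX1⟩ := hX₀ X ((le_max_left _ _).trans hX)
  have hX0 : 0 ≤ X := by linarith
  obtain ⟨W, hW⟩ : ∃ W : ℝ, W = √(8 * X / Real.log X) := ⟨_, rfl⟩
  have hW0 : 0 ≤ W := by rw [hW]; exact Real.sqrt_nonneg _
  rw [← hW] at hpoly
  simp only [← hW] at ha1
  have hgoal : ∑ l, √(8 * κ l * X / Real.log X) = σ * W := by
    rw [hσ, Finset.sum_mul]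
    refine Finset.sum_congr rfl fun l _ => ?_
    rw [hW, ← Real.sqrt_mul (hκ0 l)]
    congr 1
    ring
  rw [hgoal, ← ht]
  obtain ⟨R, hR⟩ : ∃ R : Fin q → ℝ, R = fun l =>
    (1 + η) * √(8 * (z l * (X + 1) / Real.log (z l * (X + 1)))) := ⟨_, rfl⟩
  have hR0 : ∀ l, 0 ≤ R l := by
    intro l
    rw [hR]
    positivity
  have hRs : ∑ l, R l ≤ (1 + ε / 2) * (σ * W) := by
    calc ∑ l, R l ≤ ∑ l, (1 + η) * ((1 + η) * (√(z l) * W)) := by
          refine Finset.sum_le_sum fun l _ => ?_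
          rw [hR]
          exact mul_le_mul_of_nonneg_left (ha1 l) (by positivity)
      _ = (1 + η) * ((1 + η) * ((∑ l, √(z l)) * W)) := by
          rw [← Finset.mul_sum, ← Finset.mul_sum, ← Finset.sum_mul]
      _ ≤ (1 + η) * ((1 + η) * (((1 + η) * σ) * W)) := by
          apply mul_le_mul_of_nonneg_left _ (by positivity)
          apply mul_le_mul_of_nonneg_left _ (by positivity)
          exact mul_le_mul_of_nonneg_right hzs hW0
      _ = ((1 + η) * ((1 + η) * (1 + η))) * (σ * W) := by ring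
      _ ≤ _ := mul_le_mul_of_nonneg_right hη3 (by positivity)
  have hRn : 0 ≤ ∑ l, R l := Finset.sum_nonneg fun l _ => hR0 l
  -- the choice of the ideals
  have hP' : ∀ x : K, ∃ P : Fin q → Idl K, x ∈ F → IsP S α x P ∧
      ∀ l, rl (P l) ≤ (1 - κ l) * hr (aff x) + C₀ := by
    intro x
    by_cases hx : x ∈ F
    · obtain ⟨P, hP⟩ := (hF x hx).2.2
      exact ⟨P, fun _ => hP⟩
    · exact ⟨0, fun h => absurd h hx⟩
  choose P hP using hP'
  -- the points with a small radical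
  have hsm : ((#{x ∈ F | tr (P x) ≤ ((q : ℝ) - (t + δ)) * hr (aff x)} : ℕ) : ℝ) ≤
      D * Real.exp ((2 - t) * X) := by
    refine (hbig X _ hX0 ?_).trans (le_of_eq ?_)
    · intro x hx
      rw [mem_filter] at hx
      refine ⟨(hF x hx.1).1, (hF x hx.1).2.1, P x, (hP x hx.1).1, ?_⟩
      rw [add_zero]
      exact hx.2
    · congr 2
      ring
  -- the other points
  obtain ⟨Fc, hFc⟩ : ∃ Fc : Finset K,
      Fc = {x ∈ F | ¬ tr (P x) ≤ ((q : ℝ) - (t + δ)) * hr (aff x)} := ⟨_, rfl⟩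
  have hcov : (F.card : ℝ) =
      ((#{x ∈ F | tr (P x) ≤ ((q : ℝ) - (t + δ)) * hr (aff x)} : ℕ) : ℝ) + (Fc.card : ℝ) := by
    rw [hFc]
    exact_mod_cast (Finset.card_filter_add_card_filter_not
      (s := F) (fun x => tr (P x) ≤ ((q : ℝ) - (t + δ)) * hr (aff x))).symm
  obtain ⟨T, hT1, hT2, hT3⟩ := hcodes X hX0
  rw [← hs] at hT1
  have hf : ∀ x : K, ∃ c : Option (ℕ × (Pl K → Fin q) × (Pl K → ℕ)), Of α x →
      hr (aff x) ≤ X → ∃ c₁ ∈ T, c = some c₁ ∧ Ic α S C c₁ x := by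
    intro x
    by_cases hx : Of α x ∧ hr (aff x) ≤ X
    · obtain ⟨c, hc, hc'⟩ := hT3 x hx.1 hx.2
      exact ⟨some c, fun _ _ => ⟨c, hc, rfl, hc'⟩⟩
    · exact ⟨none, fun h h' => absurd ⟨h, h'⟩ hx⟩
  choose f hf using hf
  have hcard : (Fc.card : ℝ) ≤ (T.card : ℝ) *
      (B * Real.exp ((2 - t) * X + ∑ l, R l)) := by
    have hUc : ((T.image some).card : ℝ) ≤ T.card := by exact_mod_cast card_image_le
    rw [card_eq_sum_card_fiberwise (f := f) (t := T.image some) (by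
      intro x hx
      have hx' : x ∈ Fc := hx
      rw [hFc, mem_filter] at hx'
      obtain ⟨g1, g2, -⟩ := hF x hx'.1
      obtain ⟨c, hc, hc1, -⟩ := hf x g1 g2
      rw [hc1]
      exact mem_image_of_mem _ hc)]
    push_cast
    have hfib : ∀ u ∈ T.image some, ((#{x ∈ Fc | f x = u} : ℕ) : ℝ) ≤
        B * Real.exp ((2 - t) * X + ∑ l, R l) := by
      intro u hu
      obtain ⟨c, hc, rfl⟩ := mem_image.1 hu
      have b1 := cls (c := c) (α := α) (S := S) (κ := κ) (A := A) (C := C) (C₀ := C₀)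
        (κ' := t + δ) (X := X) (R := R) (Z := fun l => z l * (X + 1))
        (G := {x ∈ Fc | f x = some c}) hA.le hC.le hC₀ hκ0 hκ1 (by rw [← ht]; linarith)
        (by rw [hδ]; linarith) hcell
        (fun l => mul_le_mul_of_nonneg_right (hz l).2 (by linarith)) (by
          intro l T' F' hT' hF'
          rw [hR]
          refine hrank (z l * (X + 1)) T' F' ?_ hT' hF'
          have h5 := hXZ l
          rw [div_le_iff₀ (hz l).1] at h5
          have h6 := (hz l).1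
          nlinarith) (hT2 c hc) (by
          intro x hx
          rw [mem_filter, hFc, mem_filter] at hx
          obtain ⟨⟨hxF, hx1⟩, hx2⟩ := hx
          obtain ⟨g1, g2, -⟩ := hF x hxF
          obtain ⟨c₁, -, hc1, hc2⟩ := hf x g1 g2
          rw [hx2] at hc1
          have h5 : c = c₁ := Option.some.inj hc1
          rw [← h5] at hc2
          refine ⟨g1, hc2, P x, (hP x hxF).1, (hP x hxF).2, ?_⟩
          push Not at hx1
          exact hx1.le)
      refine b1.trans ?_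
      rw [← ht, hB]
      have b2 : Real.exp ((2 - t) * (X + 1) + ∑ l, R l) ≤
          Real.exp 2 * Real.exp ((2 - t) * X + ∑ l, R l) := by
        rw [← Real.exp_add]
        apply Real.exp_le_exp.2
        linarith
      calc A * (1 + Real.exp (2 * C)) * Real.exp (q * (1 + C + C₀)) *
            Real.exp ((2 - t) * (X + 1) + ∑ l, R l)
          ≤ A * (1 + Real.exp (2 * C)) * Real.exp (q * (1 + C + C₀)) *
            (Real.exp 2 * Real.exp ((2 - t) * X + ∑ l, R l)) :=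
            mul_le_mul_of_nonneg_left b2 (by positivity)
        _ = _ := by ring
    refine (Finset.sum_le_sum hfib).trans ?_
    rw [Finset.sum_const, nsmul_eq_mul]
    exact mul_le_mul_of_nonneg_right hUc (by positivity)
  -- the sum
  have hT4 : (T.card : ℝ) * B ≤ C * B * (X + E) ^ (1 + s) := by
    calc (T.card : ℝ) * B ≤ C * (X + C) ^ (1 + s) * B := mul_le_mul_of_nonneg_right hT1 hB0.le
      _ = C * B * (X + C) ^ (1 + s) := by ring
      _ ≤ _ := by
          apply mul_le_mul_of_nonneg_left _ hCB.le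
          apply pow_le_pow_left₀ (by linarith)
          rw [hE]; linarith
  obtain ⟨V, hV⟩ : ∃ V : ℝ, V = Real.exp ((2 - t) * X + ∑ l, R l) := ⟨_, rfl⟩
  have hV0 : 0 < V := by rw [hV]; positivity
  have hV1 : Real.exp ((2 - t) * X) ≤ V := by
    rw [hV]
    exact Real.exp_le_exp.2 (by linarith)
  rw [← hV] at hcard
  have hpow : 1 ≤ (X + E) ^ (1 + s) := one_le_pow₀ (by linarith)
  have hfin : (F.card : ℝ) ≤ E * (X + E) ^ (1 + s) * V := by
    have e1 : D * Real.exp ((2 - t) * X) ≤ D * ((X + E) ^ (1 + s) * V) := by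
      apply mul_le_mul_of_nonneg_left _ hD.le
      calc Real.exp ((2 - t) * X) ≤ 1 * V := by rw [one_mul]; exact hV1
        _ ≤ _ := mul_le_mul_of_nonneg_right hpow hV0.le
    have e2 : (T.card : ℝ) * (B * V) ≤ C * B * (X + E) ^ (1 + s) * V := by
      rw [← mul_assoc]
      exact mul_le_mul_of_nonneg_right hT4 hV0.le
    have e3 : 0 ≤ (C + 1) * ((X + E) ^ (1 + s) * V) := by positivity
    rw [hcov]
    calc ((#{x ∈ F | tr (P x) ≤ ((q : ℝ) - (t + δ)) * hr (aff x)} : ℕ) : ℝ) + (Fc.card : ℝ)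
        ≤ D * ((X + E) ^ (1 + s) * V) + C * B * (X + E) ^ (1 + s) * V := by linarith
      _ ≤ D * ((X + E) ^ (1 + s) * V) + C * B * (X + E) ^ (1 + s) * V +
          (C + 1) * ((X + E) ^ (1 + s) * V) := by linarith
      _ = _ := by rw [hE]; ring
  calc (F.card : ℝ) ≤ E * (X + E) ^ (1 + s) * V := hfin
    _ ≤ Real.exp (ε / 2 * σ * W) * V := mul_le_mul_of_nonneg_right hpoly hV0.le
    _ = Real.exp (ε / 2 * σ * W + ((2 - t) * X + ∑ l, R l)) := by rw [hV, ← Real.exp_add]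
    _ ≤ _ := by
        apply Real.exp_le_exp.2
        linarith

end Pool.Agent.N575.QP
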